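import Mathlib
import Pool.Agent.KS6_61.EK.Fin
import Pool.Graph.R_seed8.Results.MP_3c1a79_gt.AllRepresentations

/-!
# The equivariant Kuiper theorem for standard Hilbert modules, for all groups

Let `W 0, W 1, …` be Hilbert spaces of any dimension and let `K = HSum W` be the Hilbert sum of
countably many copies of each `W a`, indexed by the pairs `j = (a, n)`. For sets `𝓐 a b` of
operators from `W b` to `W a` (for instance the morphism spaces of a C*-category, or
`𝓐 a b = A` for one unital C*-algebra `A` of operators on one Hilbert space `W a = E`) the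
standard module `StdMod 𝓐 b` is the closed linear span of the operators `inc k ∘ x : W b → K`,
`x ∈ 𝓐 k.1 b` (for one algebra `A` it is the standard Hilbert `A`-module `ℓ²(A)`), and
`Adjointable 𝓐` is the set of the adjointable operators: the operators `T` on `K` such that `T`
and `T^*` map all the modules `StdMod 𝓐 b` to themselves.

Let `Γ` be any group acting on the `W a` by unitaries that normalise the `𝓐 a b`. Then the unitary
group of `Adjointable 𝓐`, the group of its invertible elements, and all the sets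
`{a | ‖a‖ ≤ c, ‖a⁻¹‖ ≤ c}`, with the norm topology, are equivariantly contractible. If the `W a`
have finite dimension and `𝓐` is everything, then all bounded operators are adjointable; for a
compact group this gives the answer to the question (`L²(G) ⊗ ℓ²` is such a Hilbert sum).
-/

set_option autoImplicit false

namespace Pool.Agent.Results.MP_3c1a79_gt.HilbertModules

open MeasureTheory Set
open scoped ENNReal
open Pool.Agent.Results.MP_3c1a79_gt.AllRepresentations (L2 Amp Op Contracts)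

noncomputable section

section Definitions

/-- The bounded operators from the Hilbert space `E` to the Hilbert space `F`. -/
def Bop (E F : Type) [NormedAddCommGroup E] [InnerProductSpace ℂ E] [NormedAddCommGroup F]
    [InnerProductSpace ℂ F] : Type := E →L[ℂ] F

section

variable {E F G : Type} [NormedAddCommGroup E] [InnerProductSpace ℂ E] [NormedAddCommGroup F]
  [InnerProductSpace ℂ F] [NormedAddCommGroup G] [InnerProductSpace ℂ G]

instance : NormedAddCommGroup (Bop E F) := (inferInstance : NormedAddCommGroup (E →L[ℂ] F))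

instance : Module ℂ (Bop E F) := (inferInstance : Module ℂ (E →L[ℂ] F))

/-- An operator as an element of Mathlib's space `E →L[ℂ] F`. -/
def Bop.toCLM (T : Bop E F) : E →L[ℂ] F := T

/-- The value of an operator at a vector. -/
def Bop.ap (T : Bop E F) (v : E) : F := T.toCLM v

/-- The composition `S ∘ T`. -/
def Bop.comp (S : Bop F G) (T : Bop E F) : Bop E G := S.toCLM.comp T.toCLM

/-- The adjoint operator. -/
def Bop.adj [CompleteSpace E] [CompleteSpace F] (T : Bop E F) : Bop F E :=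
  ContinuousLinearMap.adjoint T.toCLM

/-- The identity operator. -/
def Bop.id (E : Type) [NormedAddCommGroup E] [InnerProductSpace ℂ E] : Bop E E :=
  ContinuousLinearMap.id ℂ E

/-- A surjective linear isometry as an operator. -/
def Bop.ofIso (A : E ≃ₗᵢ[ℂ] E) : Bop E E := (A.toContinuousLinearEquiv : E →L[ℂ] E)

end

/-- The Hilbert sum of the spaces `W j.1`, where `j` runs through all pairs `j = (a, n)` of natural
numbers: countably many copies of each `W a`. -/
def HSum (W : ℕ → Type) [∀ a, NormedAddCommGroup (W a)] : Type := lp (fun j : ℕ × ℕ => W j.1) 2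

variable {W : ℕ → Type} [∀ a, NormedAddCommGroup (W a)]

instance : NormedAddCommGroup (HSum W) :=
  (inferInstance : NormedAddCommGroup (lp (fun j : ℕ × ℕ => W j.1) 2))

instance [∀ a, InnerProductSpace ℂ (W a)] : InnerProductSpace ℂ (HSum W) :=
  (inferInstance : InnerProductSpace ℂ (lp (fun j : ℕ × ℕ => W j.1) 2))

instance [∀ a, InnerProductSpace ℂ (W a)] [∀ a, CompleteSpace (W a)] : CompleteSpace (HSum W) :=
  (inferInstance : CompleteSpace (lp (fun j : ℕ × ℕ => W j.1) 2))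

/-- An element of the Hilbert sum as an element of Mathlib's space `lp`. -/
def HSum.toLp (v : HSum W) : lp (fun j : ℕ × ℕ => W j.1) 2 := v

variable [∀ a, InnerProductSpace ℂ (W a)]

/-- The inclusion of the summand number `j`. -/
def inc (j : ℕ × ℕ) : Bop (W j.1) (HSum W) :=
  lp.singleContinuousLinearMap ℂ (fun j : ℕ × ℕ => W j.1) 2 j

/-- The projection to the summand number `k`. -/
def crd (k : ℕ × ℕ) : Bop (HSum W) (W k.1) := lp.evalCLM ℂ (fun j : ℕ × ℕ => W j.1) 2 k

/-- The standard module: the closed linear span of the operators `inc k ∘ x` with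
`x ∈ 𝓐 k.1 b`. -/
def StdMod (𝓐 : ∀ a b, Set (Bop (W b) (W a))) (b : ℕ) : Set (Bop (W b) (HSum W)) :=
  closure (Submodule.span ℂ {y | ∃ k : ℕ × ℕ, ∃ x ∈ 𝓐 k.1 b, y = (inc k).comp x})

/-- The adjointable operators: the operators `T` on the Hilbert sum such that `T` and `T^*` map all
standard modules to themselves. -/
def Adjointable [∀ a, CompleteSpace (W a)] (𝓐 : ∀ a b, Set (Bop (W b) (W a))) :
    Set (Bop (HSum W) (HSum W)) :=
  {T | ∀ b, ∀ y ∈ StdMod 𝓐 b, T.comp y ∈ StdMod 𝓐 b ∧ T.adj.comp y ∈ StdMod 𝓐 b}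

/-- The diagonal action of the group `Γ` on the Hilbert sum. -/
def IsDiag {Γ : Type} (U : Γ → ∀ a, (W a ≃ₗᵢ[ℂ] W a)) (D : Γ → Bop (HSum W) (HSum W)) : Prop :=
  ∀ g v j, (crd j).ap ((D g).ap v) = U g j.1 ((crd j).ap v)

/-- The identity operators are in `𝓐`. -/
def HasUnits (𝓐 : ∀ a b, Set (Bop (W b) (W a))) : Prop := ∀ a, Bop.id (W a) ∈ 𝓐 a a

/-- A closed linear subspace. -/
def IsClosedSubspace {X : Type} [NormedAddCommGroup X] [Module ℂ X] (S : Set X) : Prop :=
  IsClosed S ∧ 0 ∈ S ∧ (∀ x ∈ S, ∀ y ∈ S, x + y ∈ S) ∧ ∀ (c : ℂ), ∀ x ∈ S, c • x ∈ S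

/-- A linear category of operators: the `𝓐 a b` are closed linear spaces, stable under
composition, with units. -/
def IsCategory (𝓐 : ∀ a b, Set (Bop (W b) (W a))) : Prop :=
  HasUnits 𝓐 ∧ (∀ a b, IsClosedSubspace (𝓐 a b)) ∧
    ∀ a b c, ∀ x ∈ 𝓐 a b, ∀ y ∈ 𝓐 b c, x.comp y ∈ 𝓐 a c

/-- The unitaries `U_g` normalise `𝓐`. -/
def Normalises {Γ : Type} (U : Γ → ∀ a, (W a ≃ₗᵢ[ℂ] W a)) (𝓐 : ∀ a b, Set (Bop (W b) (W a))) :
    Prop :=
  ∀ g a b, ∀ x ∈ 𝓐 a b, (Bop.ofIso (U g a)).comp (x.comp (Bop.ofIso (U g b).symm)) ∈ 𝓐 a b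

/-- All matrix entries of the operator `T` on the Hilbert sum are in `𝓐`, and the columns of the
matrix converge in norm. -/
def NiceMatrix (𝓐 : ∀ a b, Set (Bop (W b) (W a))) (T : Bop (HSum W) (HSum W)) : Prop :=
  ∀ j : ℕ × ℕ, (∀ k : ℕ × ℕ, (crd k).comp (T.comp (inc j)) ∈ 𝓐 k.1 j.1) ∧
    HasSum (fun k => (inc k).comp ((crd k).comp (T.comp (inc j)))) (T.comp (inc j))

end Definitions

/-- The operators `a` in `S` that have an inverse `b` in `S`, with `‖a‖ ≤ c` and `‖b‖ ≤ c`, where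
`c` is an extended real number. -/
def Inv {H : Type} [NormedAddCommGroup H] [InnerProductSpace ℂ H] (S : Set (Bop H H))
    (c : ℝ≥0∞) : Set (Bop H H) :=
  {a | a ∈ S ∧ ∃ b ∈ S, a.comp b = Bop.id H ∧ b.comp a = Bop.id H ∧ ‖a‖ₑ ≤ c ∧ ‖b‖ₑ ≤ c}

/-- Let the elements `g` of `Γ` act on `A` by the maps `ρ g`. The subset `S` of `A` with the
subspace topology is preserved by `Γ`, and there are a point `y₀` of `S` fixed by `Γ` and a
continuous map `h : [0, 1] × S → S` with `h (0, y) = y`, `h (1, y) = y₀`, `h (t, y₀) = y₀` and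
`h (t, g • y) = g • h (t, y)`. No continuity of the action in `g` is assumed. -/
def EqContr {Γ A : Type} [TopologicalSpace A] (ρ : Γ → A → A) (S : Set A) : Prop :=
  (∀ g, MapsTo (ρ g) S S) ∧ ∃ y₀ ∈ S, (∀ g, ρ g y₀ = y₀) ∧ ∃ h : ℝ → A → A,
    ContinuousOn (fun p : ℝ × A => h p.1 p.2) (Icc 0 1 ×ˢ S) ∧
    (∀ t ∈ Icc (0 : ℝ) 1, MapsTo (h t) S S) ∧ (∀ y ∈ S, h 0 y = y) ∧ (∀ y ∈ S, h 1 y = y₀) ∧
    (∀ t ∈ Icc (0 : ℝ) 1, h t y₀ = y₀) ∧
    ∀ t ∈ Icc (0 : ℝ) 1, ∀ y ∈ S, ∀ g, h t (ρ g y) = ρ g (h t y)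

/-- The set `S` of operators on `H` is such that for all extended real numbers `c ≥ 1` the set
`Inv S c`, with the norm topology, is equivariantly contractible for the conjugation action
`g • T = D_g T D_g^*`, and the `D_g` are unitary. -/
def Contractible {Γ H : Type} [NormedAddCommGroup H] [InnerProductSpace ℂ H] [CompleteSpace H]
    (D : Γ → Bop H H) (S : Set (Bop H H)) : Prop :=
  (∀ g, (D g).comp (D g).adj = Bop.id H ∧ (D g).adj.comp (D g) = Bop.id H) ∧
    ∀ c : ℝ≥0∞, 1 ≤ c → EqContr (fun g T => (D g).comp (T.comp (D g).adj)) (Inv S c)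

section Clauses

variable {W : ℕ → Type} [∀ a, NormedAddCommGroup (W a)] [∀ a, InnerProductSpace ℂ (W a)]
  [∀ a, CompleteSpace (W a)]

omit [∀ a, CompleteSpace (W a)] in
/-- `U` is a unitary representation of the group `Γ` on each `W a`. -/
def IsRep {Γ : Type} [Group Γ] (U : Γ → ∀ a, (W a ≃ₗᵢ[ℂ] W a)) : Prop :=
  ∀ g h a v, U (g * h) a v = U g a (U h a v)

/-- The set of the adjointable operators is equivariantly contractible, in the sense of
`Contractible`, for all groups acting by unitaries that normalise `𝓐`. -/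
def ModuleTheorem (𝓐 : ∀ a b, Set (Bop (W b) (W a))) : Prop :=
  ∀ (Γ : Type) [Group Γ] (U : Γ → ∀ a, (W a ≃ₗᵢ[ℂ] W a)), IsRep U → Normalises U 𝓐 →
    ∃ D : Γ → Bop (HSum W) (HSum W), IsDiag U D ∧ Contractible D (Adjointable 𝓐)

/-- The elements of `Inv (Adjointable 𝓐) 1` are the unitary adjointable operators, those of
`Inv (Adjointable 𝓐) ∞` are the adjointable operators that are invertible. -/
def InvMeaning (𝓐 : ∀ a b, Set (Bop (W b) (W a))) : Prop :=
  ∀ T : Bop (HSum W) (HSum W), (T ∈ Inv (Adjointable 𝓐) 1 ↔ T ∈ Adjointable 𝓐 ∧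
    T.adj.comp T = Bop.id (HSum W) ∧ T.comp T.adj = Bop.id (HSum W)) ∧
    (T ∈ Inv (Adjointable 𝓐) ⊤ ↔ T ∈ Adjointable 𝓐 ∧
      ∃ S : Bop (HSum W) (HSum W), S.comp T = Bop.id (HSum W) ∧ T.comp S = Bop.id (HSum W))

/-- The adjointable operators are those for which the matrices of `T` and `T^*` have entries in `𝓐`
and columns that converge in norm. -/
def MatrixForm (𝓐 : ∀ a b, Set (Bop (W b) (W a))) : Prop :=
  ∀ T : Bop (HSum W) (HSum W), T ∈ Adjointable 𝓐 ↔ NiceMatrix 𝓐 T ∧ NiceMatrix 𝓐 T.adj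

end Clauses

/-- `L²(G) ⊗ ℓ²` with the regular representation on the first factor: the sets of the invertible
operators with `‖T‖, ‖T⁻¹‖ ≤ c` are equivariantly contractible (for `c = 1` the unitary group, for
`c = ∞` the group `GL(H)`). -/
def Question (G : Type) [Group G] [MeasurableSpace G] (μ : Measure G) : Prop :=
  ∃ P : G → Op (Amp (L2 μ)), AllRepresentations.IsRegular P ∧ Contracts P

/-- **Main theorem.** -/
theorem result :
    -- all Hilbert spaces `W a`, all systems `𝓐`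
    (∀ (W : ℕ → Type) [∀ a, NormedAddCommGroup (W a)] [∀ a, InnerProductSpace ℂ (W a)]
      [∀ a, CompleteSpace (W a)] (𝓐 : ∀ a b, Set (Bop (W b) (W a))),
      (HasUnits 𝓐 → ModuleTheorem 𝓐) ∧ InvMeaning 𝓐 ∧ (IsCategory 𝓐 → MatrixForm 𝓐) ∧
      ((∀ a, FiniteDimensional ℂ (W a)) → (∀ a b, 𝓐 a b = univ) → Adjointable 𝓐 = univ)) ∧
    -- the question: compact groups
    (∀ (G : Type) [TopologicalSpace G] [Group G] [IsTopologicalGroup G] [CompactSpace G]
      [SecondCountableTopology G] [MeasurableSpace G] [BorelSpace G] (μ : Measure G)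
      [μ.IsHaarMeasure] [IsProbabilityMeasure μ], Question G μ) := by
  refine ⟨fun W _ _ _ 𝓐 => ⟨?_, ?_, ?_, ?_⟩, ?_⟩
  · intro hid Γ _ U₀ hrep hU
    let U : Γ →* Pool.Agent.Helper110.Kuiper.GG W :=
      MonoidHom.mk' (fun g => U₀ g) fun g h => funext fun a =>
        LinearIsometryEquiv.ext fun v => hrep g h a v
    refine ⟨fun g => Pool.Agent.Helper110.Kuiper.dg (U g), fun g v j => rfl, fun g =>
      ⟨Unitary.mul_star_self_of_mem (Pool.Agent.Helper110.Kuiper.dg_mem (U g)),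
        Unitary.star_mul_self_of_mem (Pool.Agent.Helper110.Kuiper.dg_mem (U g))⟩, fun c hc => ?_⟩
    exact Pool.Agent.KS6_61.EK.contr_LA hid U hU c hc
  · intro T
    refine ⟨?_, ?_⟩
    · exact Set.ext_iff.1 (Pool.Agent.KS6_61.EK.Inv_one 𝓐) T
    · have h := Set.ext_iff.1 (Pool.Agent.KS6_61.EK.Inv_top 𝓐) T
      refine Iff.trans h (and_congr_right fun _ => ?_)
      refine Iff.trans isUnit_iff_exists ?_
      exact ⟨fun ⟨b, h1, h2⟩ => ⟨b, h2, h1⟩, fun ⟨b, h1, h2⟩ => ⟨b, h2, h1⟩⟩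
  · intro h𝓐 T
    have h := Pool.Agent.KS6_61.EK.LA_iff (𝓐 := 𝓐) ⟨h𝓐.1, h𝓐.2.2, fun a b => (h𝓐.2.1 a b).2.2.1,
      fun a b => (h𝓐.2.1 a b).2.2.2, fun a b => (h𝓐.2.1 a b).2.1, fun a b => (h𝓐.2.1 a b).1⟩ T
    refine Iff.trans h ?_
    constructor
    · intro h1
      exact ⟨fun j => ⟨fun k => ((h1 j).2.2 k).1, (h1 j).1⟩,
        fun j => ⟨fun k => ((h1 j).2.2 k).2, (h1 j).2.1⟩⟩
    · rintro ⟨h1, h2⟩ j
      exact ⟨(h1 j).2, (h2 j).2, fun k => ⟨(h1 j).1 k, (h2 j).1 k⟩⟩
  · intro hfd h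
    exact Set.eq_univ_of_forall fun T => Pool.Agent.KS6_61.EK.LA_univ (𝓐 := 𝓐) h T
  · intro G _ _ _ _ _ _ _ μ _ _
    exact Pool.Agent.Results.MP_3c1a79_gt.AllRepresentations.result.2.2.2 G μ

end

end Pool.Agent.Results.MP_3c1a79_gt.HilbertModules
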